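import Mathlib
import Pool.Agent.Helper26.TK.All
import Pool.Agent.Helper26.TK.PosAll

/-!
# The Tukey dichotomy for weakly compact sets in separable Banach spaces

(1) For every coanalytic subset `C` of the Cantor space without uncountable closed subset there is
a separable Banach space `X` with a 1-unconditional basis such that `[C]^{<ω} ⪯ AK(B_X)` and
`AK(B_X) ⪯ [C]^{<ω} × ω`.  If `C` is uncountable and of size less than the cofinality of `ω^ω`
then `X` is not SWCG and `ω^ω` is not Tukey below `AK(B_X)`.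
(2) So the dichotomy implies that every coanalytic set of size less than the cofinality of `ω^ω`
is countable; it is not provable in ZFC.
(3) If all infinite games on `ℕ` with payoff a Boolean combination of analytic sets are
determined, then every separable Banach space satisfies the dichotomy.
(4) In ZFC: for every separable Banach space `X` either `ω^ω ⪯ AK(B_X)` or
`AK(B_X) ⪯ [ω₁]^{<ω}`.
-/

open Set Filter Topology MeasureTheory Cardinal

namespace Pool.Agent.Results.MP_c88f67_an.Independence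

/-- Tukey functions between sets with binary relations. -/
def IsTukey {U V : Type} (R : U → U → Prop) (S : V → V → Prop) (h : U → V) : Prop :=
  ∀ v₀ : V, ∃ u₀ : U, ∀ u : U, S (h u) v₀ → R u u₀

/-- `K(B_X)`: the weakly compact subsets of the closed unit ball. -/
def WKB (X : Type) [NormedAddCommGroup X] [NormedSpace ℝ X] : Type :=
  {K : Set X // K ⊆ Metric.closedBall 0 1 ∧ IsCompact ((toWeakSpace ℝ X) '' K)}

/-- The relation `L ≤_ε K`, that is, `L ⊆ K + ε B_X`. -/
def leEps {X : Type} [NormedAddCommGroup X] [NormedSpace ℝ X] (ε : ℝ) (L K : WKB X) : Prop :=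
  ∀ v ∈ L.1, ∃ w ∈ K.1, ‖v - w‖ ≤ ε

/-- `AK(B_X) ⪯ Q`. -/
def AKBelow (X : Type) [NormedAddCommGroup X] [NormedSpace ℝ X] (Q : Type) [LE Q] : Prop :=
  ∀ ε : ℝ, 0 < ε → ∃ h : WKB X → Q, IsTukey (leEps ε) (fun a b : Q => a ≤ b) h

/-- `Q ⪯ AK(B_X)`. -/
def AKAbove (X : Type) [NormedAddCommGroup X] [NormedSpace ℝ X] (Q : Type) [LE Q] : Prop :=
  ∃ δ : ℝ, 0 < δ ∧ ∃ h : Q → WKB X, IsTukey (fun a b : Q => a ≤ b) (leEps δ) h

/-- The dichotomy of the problem for the space `X`. -/
def Dichotomy (X : Type) [NormedAddCommGroup X] [NormedSpace ℝ X] : Prop :=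
  AKBelow X ℕ ∨ AKAbove X (ℕ → ℕ)

/-- Strongly weakly compactly generated spaces. -/
def SWCG (X : Type) [NormedAddCommGroup X] [NormedSpace ℝ X] : Prop :=
  ∃ K : Set X, IsCompact ((toWeakSpace ℝ X) '' K) ∧ ∀ ε : ℝ, 0 < ε → ∀ L : Set X,
    IsCompact ((toWeakSpace ℝ X) '' L) → ∃ n : ℕ, ∀ v ∈ L, ∃ w ∈ K, ‖v - (n : ℝ) • w‖ ≤ ε

/-- `X` has a 1-unconditional basis. -/
def UncBasis (X : Type) [NormedAddCommGroup X] [NormedSpace ℝ X] : Prop :=
  ∃ e : ℕ → X, (∀ n, e n ≠ 0) ∧ Dense (Submodule.span ℝ (Set.range e) : Set X) ∧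
    ∀ (s : Finset ℕ) (a b : ℕ → ℝ), (∀ i ∈ s, |b i| ≤ |a i|) →
      ‖∑ i ∈ s, b i • e i‖ ≤ ‖∑ i ∈ s, a i • e i‖

/-- The play of an infinite game in which player I (even moves) follows the strategy `σ`, a
function of the list of the previous moves of player II, and player II plays `y 0, y 1, ...`. -/
def playI (σ : List ℕ → ℕ) (y : ℕ → ℕ) (n : ℕ) : ℕ :=
  if n % 2 = 0 then σ ((List.range (n / 2)).map y) else y (n / 2)

/-- The play in which player I plays `y 0, y 1, ...` and player II (odd moves) follows the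
strategy `τ`, a function of the list of the previous moves of player I. -/
def playII (τ : List ℕ → ℕ) (y : ℕ → ℕ) (n : ℕ) : ℕ :=
  if n % 2 = 0 then y (n / 2) else τ ((List.range (n / 2 + 1)).map y)

/-- The infinite game on `ℕ` with payoff set `A` for player I is determined. -/
def Determined (A : Set (ℕ → ℕ)) : Prop :=
  (∃ σ : List ℕ → ℕ, ∀ y, playI σ y ∈ A) ∨ ∃ τ : List ℕ → ℕ, ∀ y, playII τ y ∉ A

/-- The Boolean algebra generated by the analytic subsets of `ℕ → ℕ`. -/
def BooleanAnalytic (A : Set (ℕ → ℕ)) : Prop :=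
  ∀ F : Set (Set (ℕ → ℕ)), (∀ s, AnalyticSet s → s ∈ F) → (∀ s ∈ F, sᶜ ∈ F) →
    (∀ s ∈ F, ∀ t ∈ F, s ∪ t ∈ F) → A ∈ F

/-- Main theorem, see the header of the file. -/
theorem result :
    -- (1)
    (∀ C : Set (ℕ → Bool), AnalyticSet Cᶜ →
      (∀ K : Set (ℕ → Bool), IsClosed K → K ⊆ C → K.Countable) →
      ∃ (X : Type) (_ : NormedAddCommGroup X) (_ : NormedSpace ℝ X),
        CompleteSpace X ∧ TopologicalSpace.SeparableSpace X ∧ UncBasis X ∧
        AKAbove X (Finset C) ∧ AKBelow X (Finset C × ℕ) ∧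
        (¬ C.Countable → ¬ AKBelow X ℕ ∧ ¬ SWCG X) ∧
        (#C < Order.cof (ℕ → ℕ) → ¬ AKAbove X (ℕ → ℕ))) ∧
    -- (2)
    ((∀ (X : Type) [NormedAddCommGroup X] [NormedSpace ℝ X] [CompleteSpace X]
        [TopologicalSpace.SeparableSpace X], UncBasis X → Dichotomy X) →
      ∀ C : Set (ℕ → Bool), AnalyticSet Cᶜ → #C < Order.cof (ℕ → ℕ) → C.Countable) ∧
    -- (3)
    ((∀ A : Set (ℕ → ℕ), BooleanAnalytic A → Determined A) →
      ∀ (X : Type) [NormedAddCommGroup X] [NormedSpace ℝ X] [CompleteSpace X]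
        [TopologicalSpace.SeparableSpace X], Dichotomy X) ∧
    -- (4)
    (∀ (X : Type) [NormedAddCommGroup X] [NormedSpace ℝ X] [CompleteSpace X]
        [TopologicalSpace.SeparableSpace X],
      AKAbove X (ℕ → ℕ) ∨ ∀ E : Type, aleph 1 ≤ #E → AKBelow X (Finset E)) := by
  refine ⟨Pool.Agent.Helper26.TK.main'.1, Pool.Agent.Helper26.TK.main'.2, fun hdet => ?_,
    Pool.Agent.Helper26.TK.zfc_all⟩
  refine Pool.Agent.Helper26.TK.det_all (fun A hA => ?_)
  have hB : BooleanAnalytic A := by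
    intro F h1 h2 h3
    induction hA with
    | an s h => exact h1 s h
    | compl s _ ih => exact h2 _ ih
    | union s t _ _ ihs iht => exact h3 _ ihs _ iht
  exact hdet A hB

end Pool.Agent.Results.MP_c88f67_an.Independence
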